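import Mathlib

/-!
MP_c0ff68_co: the gap factor between Avoider-Forcer and Maker-Breaker games is at most 2.
-/

namespace Pool.Agent.Results.MP_c0ff68_co.GapAtMostTwo

open Finset Classical

/-- Two players alternately claim one unclaimed element of `V` until `n` more elements have been
claimed.  `Forces goal n b X Y`: player I, who owns `X` (the opponent owns `Y`), can force that
`goal (final set of I) (final set of the opponent)` holds.  `b = true` means that player I moves
next.  With `n = |V|` and `X = Y = ∅` this is the game played until the whole board is claimed. -/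
def Forces {V : Type} [Fintype V] (goal : Finset V → Finset V → Prop) :
    ℕ → Bool → Finset V → Finset V → Prop
  | 0, _, X, Y => goal X Y
  | n+1, true, X, Y => ∃ v, v ∉ X ∧ v ∉ Y ∧ Forces goal n false (insert v X) Y
  | n+1, false, X, Y => ∀ v, v ∉ X → v ∉ Y → Forces goal n true X (insert v Y)

/-- `F` has gap factor at least `c`: whichever player moves first, Forcer forces Avoider to claim a
whole winning set, and Breaker keeps Maker's final set `M` to `|M ∩ A| ≤ |A| / c` for all `A ∈ F`. -/
def GapFactorAtLeast {V : Type} [Fintype V] (F : Finset (Finset V)) (c : ℝ) : Prop :=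
  (∀ b : Bool, Forces (fun _forcer avoider => ∃ A ∈ F, A ⊆ avoider) (Fintype.card V) b ∅ ∅) ∧
  (∀ b : Bool, Forces (fun _breaker maker => ∀ A ∈ F, ((maker ∩ A).card : ℝ) ≤ (A.card : ℝ) / c)
    (Fintype.card V) b ∅ ∅)

/-- the set of all `c ≥ 1` such that some finite hypergraph has gap factor at least `c` -/
def gapSet : Set ℝ := {c | 1 ≤ c ∧ ∃ (m : ℕ) (F : Finset (Finset (Fin m))),
  (∀ A ∈ F, A.Nonempty) ∧ GapFactorAtLeast F c}

section

variable {V : Type} [Fintype V]

/-- two forcing strategies can be played against each other -/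
theorem clash (g g' : Finset V → Finset V → Prop) : ∀ (n : ℕ) (b : Bool) (X Y : Finset V),
    Forces g n b X Y → Forces g' n (!b) Y X → n + X.card + Y.card ≤ Fintype.card V →
    ∃ X' Y', g X' Y' ∧ g' Y' X'
  | 0, _, X, Y => fun h h' _ => ⟨X, Y, h, h'⟩
  | n+1, true, X, Y => by
    intro h h' hc
    obtain ⟨v, h1, h2, h3⟩ := h
    refine clash g g' n false (insert v X) Y h3 (h' v h2 h1) ?_
    have := Finset.card_insert_le v X
    omega
  | n+1, false, X, Y => by
    intro h h' hc
    obtain ⟨v, h1, h2, h3⟩ := h'
    refine clash g g' n true X (insert v Y) (h v h2 h1) h3 ?_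
    have := Finset.card_insert_le v Y
    omega

/-- greedy play: the player to move can keep the weight difference -/
theorem greedy (w : V → ℝ) (hw : ∀ v, 0 ≤ w v) : ∀ (n : ℕ) (X Y : Finset V), Disjoint X Y →
    n + X.card + Y.card = Fintype.card V → ∀ D : ℝ, D ≤ ∑ v ∈ X, w v - ∑ v ∈ Y, w v →
    Forces (fun X' Y' => X' ∪ Y' = univ ∧ Disjoint X' Y' ∧ D ≤ ∑ v ∈ X', w v - ∑ v ∈ Y', w v)
      n true X Y
  | 0, X, Y => by
    intro hd hc D hD
    refine ⟨?_, hd, hD⟩
    apply Finset.eq_univ_of_card
    rw [Finset.card_union_of_disjoint hd]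
    omega
  | 1, X, Y => by
    intro hd hc D hD
    have hex : (univ \ (X ∪ Y)).Nonempty := by
      rw [← Finset.card_pos, Finset.card_sdiff_of_subset (Finset.subset_univ _), Finset.card_univ,
        Finset.card_union_of_disjoint hd]
      omega
    obtain ⟨v, hv⟩ := hex
    have hv' : v ∉ X ∧ v ∉ Y := by simpa using hv
    refine ⟨v, hv'.1, hv'.2, ?_⟩
    have hd' : Disjoint (insert v X) Y := Finset.disjoint_insert_left.mpr ⟨hv'.2, hd⟩
    refine ⟨?_, hd', ?_⟩
    · apply Finset.eq_univ_of_card
      rw [Finset.card_union_of_disjoint hd', Finset.card_insert_of_notMem hv'.1]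
      omega
    · rw [Finset.sum_insert hv'.1]
      linarith [hw v]
  | n+2, X, Y => by
    intro hd hc D hD
    have hex : (univ \ (X ∪ Y)).Nonempty := by
      rw [← Finset.card_pos, Finset.card_sdiff_of_subset (Finset.subset_univ _), Finset.card_univ,
        Finset.card_union_of_disjoint hd]
      omega
    obtain ⟨v, hv, hmax⟩ := Finset.exists_max_image (univ \ (X ∪ Y)) w hex
    have hv' : v ∉ X ∧ v ∉ Y := by simpa using hv
    refine ⟨v, hv'.1, hv'.2, ?_⟩
    intro u hu hu'
    have hd' : Disjoint (insert v X) Y := Finset.disjoint_insert_left.mpr ⟨hv'.2, hd⟩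
    have hd'' : Disjoint (insert v X) (insert u Y) := Finset.disjoint_insert_right.mpr ⟨hu, hd'⟩
    have huX : u ∉ X := fun h => hu (Finset.mem_insert_of_mem h)
    have hle : w u ≤ w v := hmax u (by simp [huX, hu'])
    refine greedy w hw n (insert v X) (insert u Y) hd'' ?_ D ?_
    · rw [Finset.card_insert_of_notMem hv'.1, Finset.card_insert_of_notMem hu']
      omega
    · rw [Finset.sum_insert hv'.1, Finset.sum_insert hu']
      linarith

/-- total weight of an element -/
noncomputable def wt (F : Finset (Finset V)) (v : V) : ℝ :=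
  ∑ A ∈ F.filter (fun A => v ∈ A), 1 / (A.card : ℝ)

theorem wt_nonneg (F : Finset (Finset V)) (v : V) : 0 ≤ wt F v :=
  Finset.sum_nonneg (fun A _ => by positivity)

theorem half_of_weight (F : Finset (Finset V)) (hne : F.Nonempty) (hF : ∀ A ∈ F, A.Nonempty)
    (M B : Finset V) (hU : M ∪ B = univ) (hD : Disjoint M B)
    (hM : 0 ≤ ∑ v ∈ M, wt F v - ∑ v ∈ B, wt F v) :
    ∃ A ∈ F, (A.card : ℝ) / 2 ≤ ((M ∩ A).card : ℝ) := by
  have hsum : ∀ X : Finset V, ∑ v ∈ X, wt F v = ∑ A ∈ F, ((X ∩ A).card : ℝ) / A.card := by
    intro X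
    simp only [wt, Finset.sum_filter]
    rw [Finset.sum_comm]
    apply Finset.sum_congr rfl
    intro A _
    rw [← Finset.sum_filter, Finset.sum_const, nsmul_eq_mul, Finset.filter_mem_eq_inter]
    ring
  have htot : ∑ A ∈ F, ((M ∩ A).card : ℝ) / A.card + ∑ A ∈ F, ((B ∩ A).card : ℝ) / A.card =
      ∑ A ∈ F, (1 : ℝ) := by
    rw [← Finset.sum_add_distrib]
    apply Finset.sum_congr rfl
    intro A hA
    have hpos : (0:ℝ) < A.card := by exact_mod_cast (hF A hA).card_pos
    have hcard : (M ∩ A).card + (B ∩ A).card = A.card := by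
      rw [← Finset.card_union_of_disjoint (Finset.disjoint_of_subset_left Finset.inter_subset_left
        (Finset.disjoint_of_subset_right Finset.inter_subset_left hD)),
        ← Finset.union_inter_distrib_right, hU, Finset.univ_inter]
    have hcard' : ((M ∩ A).card : ℝ) + (B ∩ A).card = A.card := by exact_mod_cast hcard
    rw [← add_div, hcard', div_self hpos.ne']
  rw [hsum, hsum] at hM
  by_contra hcon
  push Not at hcon
  have hlt : ∑ A ∈ F, ((M ∩ A).card : ℝ) / A.card < ∑ A ∈ F, (1/2 : ℝ) := by
    apply Finset.sum_lt_sum_of_nonempty hne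
    intro A hA
    have hpos : (0:ℝ) < A.card := by exact_mod_cast (hF A hA).card_pos
    rw [div_lt_iff₀ hpos]
    have := hcon A hA
    linarith
  have h12 : ∑ A ∈ F, (1:ℝ) = 2 * ∑ A ∈ F, (1/2 : ℝ) := by
    rw [Finset.mul_sum]
    apply Finset.sum_congr rfl
    intro _ _
    norm_num
  linarith

theorem forces_mono (g g' : Finset V → Finset V → Prop) (h : ∀ X Y, g X Y → g' X Y) :
    ∀ (n : ℕ) (b : Bool) (X Y : Finset V), Forces g n b X Y → Forces g' n b X Y
  | 0, _, X, Y => fun hg => h X Y hg
  | n+1, true, X, Y => fun ⟨v, h1, h2, h3⟩ => ⟨v, h1, h2, forces_mono g g' h n false _ _ h3⟩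
  | n+1, false, X, Y => fun hg v h1 h2 => forces_mono g g' h n true _ _ (hg v h1 h2)

/-- **Maker, moving first, claims at least half of some winning set** (for every nonempty family
of nonempty sets). -/
theorem maker_half (F : Finset (Finset V)) (hne : F.Nonempty) (hF : ∀ A ∈ F, A.Nonempty) :
    Forces (fun maker _breaker => ∃ A ∈ F, (A.card : ℝ) / 2 ≤ ((maker ∩ A).card : ℝ))
      (Fintype.card V) true ∅ ∅ := by
  have hgr := greedy (wt F) (wt_nonneg F) (Fintype.card V) ∅ ∅
    (Finset.disjoint_empty_left _) (by simp) 0 (by simp)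
  refine forces_mono _ _ ?_ _ _ _ _ hgr
  rintro X Y ⟨hU, hD, hM⟩
  exact half_of_weight F hne hF X Y hU hD hM

theorem le_two (F : Finset (Finset V)) (hF : ∀ A ∈ F, A.Nonempty) (c : ℝ) (hc : 1 ≤ c)
    (h : GapFactorAtLeast F c) : c ≤ 2 := by
  have hne : F.Nonempty := by
    by_contra hemp
    rw [Finset.not_nonempty_iff_eq_empty] at hemp
    have h1 := h.1 true
    obtain ⟨B, M, hB, _⟩ := clash _ _ (Fintype.card V) true ∅ ∅ h1
      (show Forces (fun _ _ => True) (Fintype.card V) false ∅ ∅ from by
        have key : ∀ (n : ℕ) (b : Bool) (X Y : Finset V), n + X.card + Y.card = Fintype.card V →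
            Disjoint X Y → Forces (fun _ _ => True) n b X Y := by
          intro n
          induction n with
          | zero => intro b X Y _ _; exact trivial
          | succ n ih =>
            intro b X Y hc hd
            cases b with
            | false =>
              intro v hv hv'
              refine ih true X (insert v Y) ?_ (Finset.disjoint_insert_right.mpr ⟨hv, hd⟩)
              rw [Finset.card_insert_of_notMem hv']; omega
            | true =>
              have hex : (univ \ (X ∪ Y)).Nonempty := by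
                rw [← Finset.card_pos, Finset.card_sdiff_of_subset (Finset.subset_univ _),
                  Finset.card_univ, Finset.card_union_of_disjoint hd]
                omega
              obtain ⟨v, hv⟩ := hex
              have hv' : v ∉ X ∧ v ∉ Y := by simpa using hv
              refine ⟨v, hv'.1, hv'.2, ih false (insert v X) Y ?_
                (Finset.disjoint_insert_left.mpr ⟨hv'.2, hd⟩)⟩
              rw [Finset.card_insert_of_notMem hv'.1]; omega
        exact key _ _ _ _ (by simp) (Finset.disjoint_empty_left _)) (by simp)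
    obtain ⟨A, hA, _⟩ := hB
    rw [hemp] at hA
    exact absurd hA (Finset.notMem_empty A)
  obtain ⟨B, M, h1, A, hA, h2⟩ := clash _ _ (Fintype.card V) false ∅ ∅ (h.2 false)
    (maker_half F hne hF) (by simp)
  have h3 := h1 A hA
  have hpos : (0:ℝ) < A.card := by exact_mod_cast (hF A hA).card_pos
  have hc0 : 0 < c := by linarith
  have h4 : (A.card : ℝ) / 2 ≤ A.card / c := h2.trans h3
  rw [div_le_div_iff₀ (by norm_num) hc0] at h4
  nlinarith

end

/-- **Main result.** (1) Every finite hypergraph with gap factor at least `c ≥ 1` has `c ≤ 2`; so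
`c^* = sup gapSet ≤ 2`, and no finite hypergraph has gap factor at least `100`.  (2) More strongly,
for every nonempty finite family of nonempty sets, Maker moving first can force, against any
Breaker, that he claims at least half of some winning set. -/
theorem result :
    (∀ (V : Type) [Fintype V] (F : Finset (Finset V)), (∀ A ∈ F, A.Nonempty) →
      ∀ c : ℝ, 1 ≤ c → GapFactorAtLeast F c → c ≤ 2) ∧
    (∀ c ∈ gapSet, c ≤ 2) ∧ sSup gapSet ≤ 2 ∧
    (∀ (V : Type) [Fintype V] (F : Finset (Finset V)), (∀ A ∈ F, A.Nonempty) →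
      ¬ GapFactorAtLeast F 100) ∧
    (∀ (V : Type) [Fintype V] (F : Finset (Finset V)), F.Nonempty → (∀ A ∈ F, A.Nonempty) →
      Forces (fun maker _breaker => ∃ A ∈ F, (A.card : ℝ) / 2 ≤ ((maker ∩ A).card : ℝ))
        (Fintype.card V) true ∅ ∅) := by
  refine ⟨fun V _ F hF c hc h => le_two F hF c hc h, ?_, ?_, ?_, ?_⟩
  · rintro c ⟨hc, m, F, hF, h⟩
    exact le_two F hF c hc h
  · apply Real.sSup_le _ (by norm_num)
    rintro c ⟨hc, m, F, hF, h⟩
    exact le_two F hF c hc h
  · intro V _ F hF h
    have := le_two F hF 100 (by norm_num) h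
    norm_num at this
  · intro V _ F hne hF
    exact maker_half F hne hF

end Pool.Agent.Results.MP_c0ff68_co.GapAtMostTwo
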